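import Pool.Agent.H56.KN.Main

/-!
# An elliptic threefold over a K3 surface with `K_X` not nef (negative answer to Q2)

Over every algebraically closed field `k` of characteristic different from `2` there are a smooth
projective threefold `X`, a smooth projective surface `Y` with trivial canonical bundle and a
fibration `f : X → Y` (a projection; `k(Y)` is algebraically closed in `k(X)`, so
`f_* O_X = O_Y`) such that `2 K_X` is trivial in a neighbourhood of every fibre, so that
`K_X = K_{X/Y}` has degree zero on every contracted curve, but `K_X` has degree `-1` on a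
rational curve. So `Y` is minimal, `κ(Y) = 0`, `K_{X/Y}` is `f`-nef, and `K_X` is not nef.

`Y ⊂ (P¹)³` is the K3 surface `u₀² g₁(x, y) = u₁² g₀(x, y)` with 8 disjoint (-2)-curves `N_i` over
the common zeros of `g₀`, `g₁`; `X` is the double cover `w² = G H` of `Y × E'`, where `G` has the zero
divisor `∑ N_i` and `H` trivialises the square of a nontrivial line bundle of order 2 on the
elliptic curve `E'`. So `K_X` is one half of the pull back of `∑ N_i`, and `K_X · C = -1` for the
curves `C = N_i × point`.

Parts of the proof are by the helpers 10, 21, 26, 27, 28, 31, 48, 59, 75, 80, 81, 86 and 98 of the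
team; the design, the definitions and the assembly are by helper 56.
-/

namespace Pool.Agent.Results.MP_be60d3_ag.EllipticOverK3

open MvPolynomial Pool.Agent.H56.KN

theorem result (k : Type) [Field k] [IsAlgClosed k] (h2 : (2 : k) ≠ 0) :
    ∃ (σ β τ γ : Type) (_ : Fintype σ) (_ : Fintype β) (_ : Fintype τ) (_ : Fintype γ)
      (bl : σ → β) (bt : τ → γ) (j : τ → σ) (K : Type) (_ : Field K) (_ : Algebra k K)
      (L : IntermediateField k K) (y : σ → K) (z : τ → L) (c : σ → MvPolynomial (Fin 2) k),
      IsSmoothVariety k bl y 3 ∧ IsSmoothVariety k bt z 2 ∧ TrivialCanonical k bt z 2 ∧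
      IsFibration k bl y L bt z j ∧ SquareTrivialOnFibres k bl y 3 L bt z j ∧
      IsRatCurve k bl y c ∧ HasCanonicalDegreeNeg k bl y 3 c 1 :=
  main k h2

end Pool.Agent.Results.MP_be60d3_ag.EllipticOverK3
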